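import Pool.Agent.Helper67.NO.St4

/-!
Project NO (MP_26be5b_ag), module CPT.
-/

set_option autoImplicit false

namespace Pool.Agent.Helper17.NO

open Pool.Agent.Helper67.NO
open Matrix
open scoped Matrix.Norms.Frobenius ContDiff Topology ComplexOrder

universe u

theorem pCPT (h1 : StCAL) (h2 : StCMM) (h3 : StCMN) (h4 : StCPD) (h5 : StCBS.{u}) :
    StCPT.{u} := by
  intro g _ _ _ hK
  obtain ⟨-, c2, c3, c4, -, -⟩ := h5 (Fin (Module.finrank ℂ g)) g (Module.finBasis ℂ g)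
  obtain ⟨h, hh, hcrit⟩ := h3 (Fin (Module.finrank ℂ g)) (arr (Module.finBasis ℂ g)) c2 (c3 hK)
  obtain ⟨b, hb⟩ := c4 h hh
  obtain ⟨a1, -, -, -, a5, a6⟩ := h5 (Fin (Module.finrank ℂ g)) g b
  obtain ⟨l1, -⟩ := h1 (Fin (Module.finrank ℂ g))
  have hstar : ∀ x : g, ∃ y : g, adM b y = (adM b x)ᴴ := by
    intro x
    apply a5 hK
    apply h2 (Fin (Module.finrank ℂ g)) (arr b)
    · rw [hb]; exact hcrit
    · exact (a6 x).1
  refine ⟨b, ⟨?_, ?_, ?_⟩⟩
  · rintro X ⟨x, rfl⟩ Y ⟨y, rfl⟩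
    exact ⟨⁅x, y⁆, (a1 x y).symm⟩
  · rintro X ⟨x, rfl⟩
    exact hstar x
  · rintro X ⟨x, rfl⟩
    obtain ⟨y, hy⟩ := hstar x
    have hexp : (NormedSpace.exp (adM b x))ᴴ = NormedSpace.exp (adM b y) := by
      rw [hy]
      exact (Matrix.exp_conjTranspose (adM b x)).symm
    have hunit : ∀ z : g, IsUnit (NormedSpace.exp (adM b z)) := fun z =>
      Matrix.isUnit_exp (adM b z)
    have hP : ((NormedSpace.exp (adM b x))ᴴ * NormedSpace.exp (adM b x)).PosDef := by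
      apply Matrix.PosDef.conjTranspose_mul_self
      exact Matrix.mulVec_injective_of_isUnit (hunit x)
    have hfix : gact ((NormedSpace.exp (adM b x))ᴴ * NormedSpace.exp (adM b x)) (arr b) =
        arr b := by
      rw [hexp, l1 _ _ _ (hunit y) (hunit x), (a6 x).2, (a6 y).2]
    obtain ⟨Y, hY1, hY2, hY3⟩ := h4 (Fin (Module.finrank ℂ g)) (arr b) _ hP hfix
    obtain ⟨z, hz⟩ := a5 hK Y hY3
    exact ⟨Y, ⟨z, hz⟩, hY1, hY2⟩

end Pool.Agent.Helper17.NO
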